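import Pool.Agent.W355.FR.Stm

namespace Pool.Agent.W728.FR

open Polynomial Pool.Agent.W355.FR Finset

theorem lag (d : ℕ) (co : ℕ → ℤ) (hc : co d ≠ 0) (T : Finset ℤ) (hT : T.card = d + 1) (m : ℤ)
    (hm : ∀ a ∈ T, m ∣ ∑ i ∈ Finset.range (d + 1), co i * a ^ i) :
    m ∣ (∏ k ∈ T, ∏ j ∈ T.erase k, (k - j)) * co d := by
  classical
  let F : ℚ[X] := ∑ i ∈ Finset.range (d + 1), C ((co i : ℤ) : ℚ) * X ^ i
  have hcoeff : ∀ n, F.coeff n = if n ≤ d then ((co n : ℤ) : ℚ) else 0 := by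
    intro n
    simp only [F, finsetSum_coeff, coeff_C_mul, coeff_X_pow, mul_ite, mul_one, mul_zero]
    rw [Finset.sum_ite_eq]
    simp only [Finset.mem_range, Nat.lt_succ_iff]
  have hFd : F.coeff d ≠ 0 := by
    rw [hcoeff, if_pos le_rfl]; exact_mod_cast hc
  have hnat : F.natDegree = d := by
    apply le_antisymm
    · rw [natDegree_le_iff_coeff_eq_zero]
      intro n hn
      rw [hcoeff, if_neg (by omega)]
    · exact le_natDegree_of_ne_zero hFd
  have hF0 : F ≠ 0 := by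
    intro h; rw [h] at hFd; simp at hFd
  have hdeg : F.degree = (d : WithBot ℕ) := by rw [degree_eq_natDegree hF0, hnat]
  have hlead : F.leadingCoeff = ((co d : ℤ) : ℚ) := by
    rw [leadingCoeff, hnat, hcoeff, if_pos le_rfl]
  have heval : ∀ a : ℤ, F.eval (a : ℚ) = ((∑ i ∈ Finset.range (d + 1), co i * a ^ i : ℤ) : ℚ) := by
    intro a
    simp only [F, eval_finsetSum, eval_mul, eval_C, eval_pow, eval_X]
    push_cast
    rfl
  have hinj : Set.InjOn (fun a : ℤ => (a : ℚ)) (T : Set ℤ) := by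
    intro a _ b _ h
    have h' : (a : ℚ) = (b : ℚ) := h
    exact_mod_cast h'
  have key := Lagrange.leadingCoeff_eq_sum (s := T) (v := fun a : ℤ => (a : ℚ)) hinj (P := F)
    (by rw [hT, hdeg]; norm_cast)
  rw [hlead] at key
  have hne : ∀ i ∈ T, (∏ j ∈ T.erase i, ((i : ℚ) - (j : ℚ))) ≠ 0 := by
    intro i hi
    apply Finset.prod_ne_zero_iff.2
    intro j hj
    rw [Finset.mem_erase] at hj
    rw [sub_ne_zero]
    exact_mod_cast (Ne.symm hj.1)
  have hV : ∀ i ∈ T, ((∏ k ∈ T, ∏ j ∈ T.erase k, (k - j) : ℤ) : ℚ) =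
      (∏ j ∈ T.erase i, ((i : ℚ) - (j : ℚ))) * ((∏ k ∈ T.erase i, ∏ j ∈ T.erase k, (k - j) : ℤ) : ℚ) := by
    intro i hi
    rw [← Finset.mul_prod_erase T _ hi]
    push_cast
    rfl
  have h2 : (((∏ k ∈ T, ∏ j ∈ T.erase k, (k - j)) * co d : ℤ) : ℚ) =
      ((∑ i ∈ T, (∑ l ∈ Finset.range (d + 1), co l * i ^ l) * (∏ k ∈ T.erase i, ∏ j ∈ T.erase k, (k - j)) : ℤ) : ℚ) := by
    rw [Int.cast_mul, key, Finset.mul_sum, Int.cast_sum]
    apply Finset.sum_congr rfl
    intro i hi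
    rw [hV i hi, heval i, Int.cast_mul]
    have := hne i hi
    field_simp
  have h3 : (∏ k ∈ T, ∏ j ∈ T.erase k, (k - j)) * co d =
      ∑ i ∈ T, (∑ l ∈ Finset.range (d + 1), co l * i ^ l) * (∏ k ∈ T.erase i, ∏ j ∈ T.erase k, (k - j)) := by
    exact_mod_cast h2
  rw [h3]
  apply Finset.dvd_sum
  intro i hi
  exact Dvd.dvd.mul_right (hm i hi) _

theorem lagb (d : ℕ) (co : ℕ → ℤ) (hc : co d ≠ 0) (T : Finset ℤ) (hT : T.card = d + 1) (m : ℤ) (L : ℕ)
    (hL : ∀ k ∈ T, ∀ j ∈ T, |k - j| ≤ (L : ℤ))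
    (hm : ∀ a ∈ T, m ∣ ∑ i ∈ Finset.range (d + 1), co i * a ^ i) :
    m ≤ (L : ℤ) ^ (d * (d + 1)) * |co d| := by
  classical
  have h := lag d co hc T hT m hm
  have hV0 : (∏ k ∈ T, ∏ j ∈ T.erase k, (k - j)) ≠ 0 := by
    apply Finset.prod_ne_zero_iff.2
    intro k hk
    apply Finset.prod_ne_zero_iff.2
    intro j hj
    rw [Finset.mem_erase] at hj
    exact sub_ne_zero.2 (Ne.symm hj.1)
  have h1 : m ≤ |(∏ k ∈ T, ∏ j ∈ T.erase k, (k - j)) * co d| :=
    Int.le_of_dvd (abs_pos.2 (mul_ne_zero hV0 hc)) ((dvd_abs _ _).2 h)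
  refine h1.trans ?_
  rw [abs_mul]
  apply mul_le_mul_of_nonneg_right _ (abs_nonneg _)
  rw [Finset.abs_prod]
  have h2 : ∏ k ∈ T, |∏ j ∈ T.erase k, (k - j)| ≤ ∏ k ∈ T, (L : ℤ) ^ d := by
    apply Finset.prod_le_prod
    · intro k _; exact abs_nonneg _
    · intro k hk
      rw [Finset.abs_prod]
      have h3 : ∏ j ∈ T.erase k, |k - j| ≤ ∏ j ∈ T.erase k, (L : ℤ) := by
        apply Finset.prod_le_prod
        · intro j _; exact abs_nonneg _
        · intro j hj; exact hL k hk j (Finset.mem_of_mem_erase hj)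
      rw [Finset.prod_const, Finset.card_erase_of_mem hk, hT] at h3
      simpa using h3
  refine h2.trans ?_
  rw [Finset.prod_const, hT, ← pow_mul]

theorem main : P_SMO := by
  classical
  intro P hP z ε δ hε hδ
  set d := P.natDegree with hd
  have hP0 : P ≠ 0 := by rintro rfl; simp at hd; omega
  have hc : P.coeff d ≠ 0 := by
    rw [hd]; exact leadingCoeff_ne_zero.2 hP0
  obtain ⟨L0, hL0⟩ := exists_nat_ge (9 * (d : ℝ) * ((z : ℝ) + 1) / δ)
  set L := L0 + 1 with hLdef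
  have hLpos : (0 : ℝ) < (L : ℝ) := by rw [hLdef]; positivity
  have hLb : 9 * (d : ℝ) * ((z : ℝ) + 1) ≤ δ * L := by
    have h1 : 9 * (d : ℝ) * ((z : ℝ) + 1) / δ ≤ (L : ℝ) := by
      rw [hLdef]; push_cast; linarith
    rw [div_le_iff₀ hδ] at h1
    linarith
  obtain ⟨e0, he0⟩ := pow_unbounded_of_one_lt ((L : ℤ) ^ (d * (d + 1)) * |P.coeff d|) (by norm_num : (1 : ℤ) < 2)
  have hten : Filter.Tendsto (fun H : ℕ => (H : ℝ) ^ ε) Filter.atTop Filter.atTop :=
    (tendsto_rpow_atTop hε).comp tendsto_natCast_atTop_atTop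
  obtain ⟨H1, hH1⟩ := Filter.eventually_atTop.1 (hten.eventually_ge_atTop ((z : ℝ) ^ e0))
  refine ⟨max H1 L, fun H hH s hs hx => ?_⟩
  have hHL : L ≤ H := (le_max_right _ _).trans hH
  have hHe : (z : ℝ) ^ e0 ≤ (H : ℝ) ^ ε := hH1 H ((le_max_left _ _).trans hH)
  have hx' : ∀ x : ℤ × ℤ, ∃ p : ℕ, x ∈ s → p.Prime ∧ p ≤ z ∧ (p : ℤ) ^ e0 ∣ hv d P x.1 x.2 := by
    intro x
    by_cases hxs : x ∈ s
    · obtain ⟨p, hp, hpz, e, he, hdv⟩ := hx x hxs
      refine ⟨p, fun _ => ⟨hp, hpz, ?_⟩⟩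
      have h1 : (p : ℝ) ^ e0 < (p : ℝ) ^ e := by
        refine lt_of_le_of_lt ?_ he
        refine le_trans ?_ hHe
        exact pow_le_pow_left₀ (by positivity) (by exact_mod_cast hpz) _
      have h2 : e0 < e := by
        have hp1 : (1 : ℝ) < (p : ℝ) := by exact_mod_cast hp.one_lt
        exact (pow_lt_pow_iff_right₀ hp1).1 h1
      exact (pow_dvd_pow _ h2.le).trans hdv
    · exact ⟨0, fun h => absurd h hxs⟩
  choose pr hpr using hx'
  let φ : ℤ × ℤ → ℕ × ℤ × ℤ := fun x => (pr x, x.2, (x.1 + H) / (L : ℤ))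
  have hLz : (0 : ℤ) < (L : ℤ) := by rw [hLdef]; positivity
  have hbox : ∀ x ∈ s, -(H : ℤ) ≤ x.1 ∧ x.1 ≤ H ∧ -(H : ℤ) ≤ x.2 ∧ x.2 ≤ H := by
    intro x hxs
    have := hs hxs
    rw [Pool.Agent.W355.FR.box] at this
    simp only [Finset.mem_filter, Finset.mem_product, Finset.mem_Icc] at this
    exact ⟨this.1.1.1, this.1.1.2, this.1.2.1, this.1.2.2⟩
  have hfib : ∀ y ∈ s.image φ, (s.filter fun x => φ x = y).card ≤ d := by
    intro y _
    by_contra hcon
    push Not at hcon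
    set Fb := s.filter fun x => φ x = y with hFb
    have hinj : Set.InjOn (fun x : ℤ × ℤ => x.1) (Fb : Set (ℤ × ℤ)) := by
      intro u hu v hv' huv
      simp only [hFb, Finset.coe_filter, Set.mem_ofPred_eq] at hu hv'
      have h1 : u.2 = v.2 := by
        have a1 := congrArg (fun q => q.2.1) hu.2
        have a2 := congrArg (fun q => q.2.1) hv'.2
        simp only [φ] at a1 a2
        rw [a1, a2]
      exact Prod.ext huv h1
    have hcard : (Fb.image (fun x : ℤ × ℤ => x.1)).card = Fb.card := Finset.card_image_of_injOn hinj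
    obtain ⟨T, hTs, hTc⟩ := Finset.exists_subset_card_eq (s := Fb.image (fun x : ℤ × ℤ => x.1)) (n := d + 1)
      (by rw [hcard]; omega)
    obtain ⟨p, b, q⟩ := y
    have hT : ∀ a ∈ T, (a, b) ∈ s ∧ pr (a, b) = p ∧ (a + H) / (L : ℤ) = q := by
      intro a ha
      have h1 := hTs ha
      rw [Finset.mem_image] at h1
      obtain ⟨u, hu, rfl⟩ := h1
      simp only [hFb, Finset.mem_filter, φ, Prod.mk.injEq] at hu
      obtain ⟨hus, hp', hb', hq'⟩ := hu
      have e : (u.1, b) = u := by rw [← hb']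
      rw [e]
      exact ⟨hus, hp', hq'⟩
    have hTne : T.Nonempty := by rw [← Finset.card_pos, hTc]; omega
    obtain ⟨a0, ha0⟩ := hTne
    obtain ⟨ha0s, ha0p, _⟩ := hT a0 ha0
    have hpp := hpr (a0, b) ha0s
    rw [ha0p] at hpp
    have hb := lagb d (fun i => P.coeff i * b ^ (d - i)) (by simpa using hc) T hTc ((p : ℤ) ^ e0) L (by
      intro k hk j hj
      obtain ⟨_, _, hk3⟩ := hT k hk
      obtain ⟨_, _, hj3⟩ := hT j hj
      have k1 := Int.mul_ediv_add_emod (k + H) L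
      have j1 := Int.mul_ediv_add_emod (j + H) L
      rw [hk3] at k1
      rw [hj3] at j1
      have k2 := Int.emod_nonneg (k + H) hLz.ne'
      have k3 := Int.emod_lt_of_pos (k + H) hLz
      have j2 := Int.emod_nonneg (j + H) hLz.ne'
      have j3 := Int.emod_lt_of_pos (j + H) hLz
      rw [abs_le]
      constructor <;> linarith) (by
      intro a ha
      obtain ⟨has, hap, _⟩ := hT a ha
      have h1 := (hpr (a, b) has).2.2
      rw [hap] at h1
      have e : hv d P a b = ∑ i ∈ Finset.range (d + 1), P.coeff i * b ^ (d - i) * a ^ i := by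
        unfold hv
        apply Finset.sum_congr rfl
        intro i _
        ring
      simp only at h1
      rw [e] at h1
      exact h1)
    simp only [Nat.sub_self, pow_zero, mul_one] at hb
    have h2 : (2 : ℤ) ^ e0 ≤ (p : ℤ) ^ e0 :=
      pow_le_pow_left₀ (by norm_num) (by exact_mod_cast hpp.1.two_le) _
    linarith
  have hc1 := Finset.card_le_mul_card_image s d hfib
  have himg : s.image φ ⊆ (Finset.range (z + 1)) ×ˢ ((Finset.Icc (-(H : ℤ)) H) ×ˢ (Finset.Icc (0 : ℤ) ((2 * H) / L))) := by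
    intro y hy
    rw [Finset.mem_image] at hy
    obtain ⟨x, hxs, rfl⟩ := hy
    obtain ⟨b1, b2, b3, b4⟩ := hbox x hxs
    simp only [φ, Finset.mem_product, Finset.mem_range, Finset.mem_Icc]
    refine ⟨Nat.lt_succ_of_le (hpr x hxs).2.1, ⟨b3, b4⟩, Int.ediv_nonneg (by linarith) hLz.le, ?_⟩
    exact Int.ediv_le_ediv hLz (by linarith)
  have hc2 := Finset.card_le_card himg
  rw [Finset.card_product, Finset.card_product, Finset.card_range, Int.card_Icc, Int.card_Icc] at hc2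
  have hq0 : (0 : ℤ) ≤ (2 * H) / L := Int.ediv_nonneg (by positivity) hLz.le
  have e1 : (((H : ℤ) + 1 - -(H : ℤ)).toNat : ℝ) = 2 * H + 1 := by
    have : ((H : ℤ) + 1 - -(H : ℤ)).toNat = 2 * H + 1 := by omega
    rw [this]; push_cast; ring
  have e2 : ((((2 * (H : ℤ)) / L + 1 - 0).toNat : ℕ) : ℝ) ≤ 2 * H / L + 1 := by
    have h1 : ((((2 * (H : ℤ)) / L + 1 - 0).toNat : ℕ) : ℤ) = (2 * (H : ℤ)) / L + 1 := by
      rw [Int.toNat_of_nonneg (by linarith)]; ring
    have h2 : (((2 * (H : ℤ)) / L : ℤ) : ℝ) ≤ 2 * H / L := by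
      rw [le_div_iff₀ hLpos]
      have := Int.ediv_mul_le (2 * (H : ℤ)) hLz.ne'
      exact_mod_cast this
    have h3 : ((((2 * (H : ℤ)) / L + 1 - 0).toNat : ℕ) : ℝ) = (((2 * (H : ℤ)) / L + 1 : ℤ) : ℝ) := by
      rw [← Int.cast_natCast (R := ℝ), h1]
    rw [h3]; push_cast at h2 ⊢; linarith
  have hHpos : (1 : ℝ) ≤ (H : ℝ) := by
    have : 1 ≤ H := by omega
    exact_mod_cast this
  have hHLr : (L : ℝ) ≤ (H : ℝ) := by exact_mod_cast hHL
  have hfin : (s.card : ℝ) ≤ (d : ℝ) * (((z : ℝ) + 1) * ((2 * H + 1) * (2 * H / L + 1))) := by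
    have a1 : (s.card : ℝ) ≤ (d : ℝ) * ((s.image φ).card : ℝ) := by exact_mod_cast hc1
    have a2 : ((s.image φ).card : ℝ) ≤ ((z : ℝ) + 1) * ((((H : ℤ) + 1 - -(H : ℤ)).toNat : ℝ) *
        ((((2 * (H : ℤ)) / L + 1 - 0).toNat : ℕ) : ℝ)) := by exact_mod_cast hc2
    rw [e1] at a2
    refine a1.trans (mul_le_mul_of_nonneg_left (a2.trans ?_) (by positivity))
    apply mul_le_mul_of_nonneg_left _ (by positivity)
    apply mul_le_mul_of_nonneg_left e2 (by positivity)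
  refine hfin.trans ?_
  have b1 : (2 * (H : ℝ) + 1) ≤ 3 * H := by linarith
  have b2 : 2 * (H : ℝ) / L + 1 ≤ 3 * H / L := by
    rw [div_add_one hLpos.ne', div_le_div_iff_of_pos_right hLpos]
    linarith
  calc (d : ℝ) * (((z : ℝ) + 1) * ((2 * H + 1) * (2 * H / L + 1)))
      ≤ (d : ℝ) * (((z : ℝ) + 1) * ((3 * H) * (3 * H / L))) := by gcongr
    _ = (9 * (d : ℝ) * ((z : ℝ) + 1)) / L * (H : ℝ) ^ 2 := by field_simp; ring
    _ ≤ δ * (H : ℝ) ^ 2 := by
        apply mul_le_mul_of_nonneg_right _ (by positivity)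
        rw [div_le_iff₀ hLpos]
        exact hLb

end Pool.Agent.W728.FR
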